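import Pool.Agent.Helper70.SUB.SheetG

/-! Project SUB, row CPT. -/

set_option autoImplicit false

namespace Pool.Agent.Helper28.SUB

open Finset Matrix Pool.Agent.Helper70.SUB

theorem CPT : ST_CPT := by
  intro κ _ M a η c hM hη hc
  classical
  obtain ⟨f, hf⟩ : ∃ f : ℕ → κ → ℤ, ∀ j i, f j i = ⌊c j i / η⌋ := ⟨fun j i => ⌊c j i / η⌋, fun _ _ => rfl⟩
  obtain ⟨T, hT⟩ : ∃ T : Finset (κ → ℤ), ∀ j ∈ M, f j ∈ T := by
    refine ⟨Fintype.piFinset (fun _ => Finset.Icc ⌊-a / η⌋ ⌊a / η⌋), fun j hj => ?_⟩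
    rw [Fintype.mem_piFinset]
    intro i
    rw [Finset.mem_Icc, hf]
    have h := abs_le.1 (hc j hj i)
    exact ⟨Int.floor_le_floor (div_le_div_of_nonneg_right h.1 hη.le),
      Int.floor_le_floor (div_le_div_of_nonneg_right h.2 hη.le)⟩
  obtain ⟨y, hy⟩ : ∃ y, {j | j ∈ M ∧ f j = y}.Infinite := by
    by_contra hcon
    push Not at hcon
    apply hM
    have hfin : (⋃ y ∈ T, {j | j ∈ M ∧ f j = y}).Finite :=
      Set.Finite.biUnion T.finite_toSet (fun y _ => hcon y)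
    exact hfin.subset (fun j hj => by
      simp only [Set.mem_iUnion]
      exact ⟨f j, hT j hj, hj, rfl⟩)
  refine ⟨{j | j ∈ M ∧ f j = y}, fun i => η * y i, fun j hj => hj.1, hy, ?_⟩
  rintro j ⟨hj, rfl⟩ i
  show |c j i - η * ((f j i : ℤ) : ℝ)| ≤ η
  rw [hf]
  have h1 := Int.floor_le (c j i / η)
  have h2 := Int.lt_floor_add_one (c j i / η)
  have h3 : η * (c j i / η) = c j i := by field_simp
  have h4 := mul_le_mul_of_nonneg_left h1 hη.le
  have h5 := mul_lt_mul_of_pos_left h2 hη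
  rw [abs_le]
  constructor <;> nlinarith
end Pool.Agent.Helper28.SUB
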