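import Pool.Agent.Helper70.SUB.SheetG

/-! Project SUB, row COEF. -/

set_option autoImplicit false

namespace Pool.Agent.Helper28.SUB

open Finset Matrix Pool.Agent.Helper70.SUB

theorem cv_mulVec {N : ℕ} (B : Matrix (Fin N) (Fin N) ℤ) (z : Fin N → ℤ) :
    cv (B.mulVec z) = (mQ B).mulVec (cv z) := by
  funext i
  simp [cv, Matrix.mulVec, dotProduct]

theorem COEF : ST_COEF := by
  intro N S A s C B lam hS hA hs hB z μ hz k
  have hN : plc S = Finset.insertNone S := rfl
  have hn : (none : Option ℕ) ∈ plc S := by simp [plc]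
  have hdet : IsUnit (A none * mQ B).det := by
    rw [Matrix.det_mul]
    have h1 := hA none hn
    have h2 : (mQ B).det ≠ 0 := by
      have h3 : (mQ B).det = ((B.det : ℤ) : ℚ) := by
        rw [Int.cast_det]
      rw [h3]
      exact_mod_cast hB.det_ne
    exact (mul_ne_zero h1 h2).isUnit
  have key : cv z = ((A none * mQ B)⁻¹).mulVec ((A none).mulVec (cv (B.mulVec z))) := by
    rw [cv_mulVec, Matrix.mulVec_mulVec _ (A none), Matrix.mulVec_mulVec, Matrix.nonsing_inv_mul _ hdet,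
      Matrix.one_mulVec]
  have hk : (z k : ℚ) = ∑ i, ((A none * mQ B)⁻¹) k i * (A none).mulVec (cv (B.mulVec z)) i := by
    have := congrFun key k
    simpa [cv, Matrix.mulVec, dotProduct] using this
  have hkR : ((z k : ℤ) : ℝ) = ∑ i, ((((A none * mQ B)⁻¹) k i : ℚ) : ℝ) *
      (((A none).mulVec (cv (B.mulVec z)) i : ℚ) : ℝ) := by
    have := congrArg (fun t : ℚ => (t : ℝ)) hk
    push_cast at this
    exact_mod_cast this
  have hlam := hB.pos k
  have hterm : ∀ i, |((((A none * mQ B)⁻¹) k i : ℚ) : ℝ) *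
      (((A none).mulVec (cv (B.mulVec z)) i : ℚ) : ℝ)| * lam k ≤ C * μ := by
    intro i
    have h1 : |((((A none * mQ B)⁻¹) k i : ℚ) : ℝ)| * (lam k * s none i) ≤ C := hB.inf_inv k i
    have h2 : |(((A none).mulVec (cv (B.mulVec z)) i : ℚ) : ℝ)| ≤ μ * s none i := hz i
    have hsi := hs none hn i
    have hμ : 0 ≤ μ := by
      have h3 := (abs_nonneg _).trans h2
      by_contra hc
      push Not at hc
      nlinarith
    rw [abs_mul]
    calc |((((A none * mQ B)⁻¹) k i : ℚ) : ℝ)| * |(((A none).mulVec (cv (B.mulVec z)) i : ℚ) : ℝ)|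
          * lam k
        ≤ |((((A none * mQ B)⁻¹) k i : ℚ) : ℝ)| * (μ * s none i) * lam k := by
          apply mul_le_mul_of_nonneg_right _ hlam.le
          exact mul_le_mul_of_nonneg_left h2 (abs_nonneg _)
      _ = (|((((A none * mQ B)⁻¹) k i : ℚ) : ℝ)| * (lam k * s none i)) * μ := by ring
      _ ≤ C * μ := mul_le_mul_of_nonneg_right h1 hμ
  rw [hkR]
  calc |∑ i, ((((A none * mQ B)⁻¹) k i : ℚ) : ℝ) *
      (((A none).mulVec (cv (B.mulVec z)) i : ℚ) : ℝ)| * lam k
      ≤ (∑ i, |((((A none * mQ B)⁻¹) k i : ℚ) : ℝ) *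
      (((A none).mulVec (cv (B.mulVec z)) i : ℚ) : ℝ)|) * lam k :=
        mul_le_mul_of_nonneg_right (Finset.abs_sum_le_sum_abs _ _) hlam.le
    _ = ∑ i, |((((A none * mQ B)⁻¹) k i : ℚ) : ℝ) *
      (((A none).mulVec (cv (B.mulVec z)) i : ℚ) : ℝ)| * lam k := by rw [Finset.sum_mul]
    _ ≤ ∑ i : Fin N, C * μ := Finset.sum_le_sum (fun i _ => hterm i)
    _ = N * C * μ := by rw [Finset.sum_const, Finset.card_univ, Fintype.card_fin, nsmul_eq_mul]; ring

end Pool.Agent.Helper28.SUB
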