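import Pool.Agent.Helper70.SUB.SheetG

/-! Project SUB, row VOL. -/

set_option autoImplicit false

namespace Pool.Agent.Helper28.SUB

open Finset Matrix Pool.Agent.Helper70.SUB

/-- the absolute value `v ∈ plc S` as a monoid homomorphism -/
theorem exists_hom (hAV : ST_AV) {S : Finset ℕ} (hS : ∀ p ∈ S, p.Prime) {v : Option ℕ}
    (hv : v ∈ plc S) : ∃ φ : ℚ →* ℝ, ∀ x, φ x = av v x := by
  obtain ⟨h0, -, h⟩ := hAV
  obtain ⟨hpos, hmul, -⟩ := h S hS
  have h1 : av v 1 = 1 := by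
    have h2 := hmul v hv 1 1
    rw [mul_one] at h2
    have h3 := hpos v hv 1 one_ne_zero
    have h4 : av v 1 * (av v 1 - 1) = 0 := by linarith
    rcases mul_eq_zero.1 h4 with h5 | h5
    · exact absurd h5 h3.ne'
    · linarith
  exact ⟨⟨⟨av v, h1⟩, fun x y => hmul v hv x y⟩, fun x => rfl⟩

theorem av_units (hAV : ST_AV) {S : Finset ℕ} (hS : ∀ p ∈ S, p.Prime) {v : Option ℕ}
    (hv : v ∈ plc S) (ε : ℤˣ) (x : ℚ) : av v (ε • x) = av v x := by
  obtain ⟨φ, hφ⟩ := exists_hom hAV hS hv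
  have h1 : φ (-1) = 1 := by
    have h2 : φ (-1) * φ (-1) = 1 := by
      rw [← map_mul]; simp
    have h3 : 0 ≤ φ (-1) := by rw [hφ]; exact hAV.1 _ _
    nlinarith
  rcases Int.units_eq_one_or ε with h | h
  · rw [h, one_smul]
  · rw [h, Units.neg_smul, one_smul, ← hφ, ← hφ, show -x = (-1) * x by ring, map_mul, h1, one_mul]

/-- bound for a determinant at a place -/
theorem det_bd (hAV : ST_AV) {S : Finset ℕ} (hS : ∀ p ∈ S, p.Prime) {v : Option ℕ}
    (hv : v ∈ plc S) {N : ℕ} (M : Matrix (Fin N) (Fin N) ℚ) (s t : Fin N → ℝ) (C : ℝ)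
    (hC : 0 ≤ C) (hs : ∀ i, 0 ≤ s i) (ht : ∀ i, 0 ≤ t i)
    (hM : ∀ i k, av v (M i k) ≤ C * s i * t k) :
    av v M.det ≤ (N.factorial : ℝ) * (C ^ N * (∏ i, s i) * ∏ k, t k) := by
  obtain ⟨φ, hφ⟩ := exists_hom hAV hS hv
  have hb : 0 ≤ C ^ N * (∏ i, s i) * ∏ k, t k :=
    mul_nonneg (mul_nonneg (pow_nonneg hC _) (Finset.prod_nonneg fun i _ => hs i))
      (Finset.prod_nonneg fun i _ => ht i)
  have hterm : ∀ σ ∈ (Finset.univ : Finset (Equiv.Perm (Fin N))),
      av v (Equiv.Perm.sign σ • ∏ i, M (σ i) i) ≤ C ^ N * (∏ i, s i) * ∏ k, t k := by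
    intro σ _
    rw [av_units hAV hS hv, ← hφ, map_prod]
    calc ∏ i, φ (M (σ i) i) ≤ ∏ i, (C * s (σ i) * t i) := by
          apply Finset.prod_le_prod
          · intro i _; rw [hφ]; exact hAV.1 _ _
          · intro i _; rw [hφ]; exact hM _ _
      _ = C ^ N * (∏ i, s i) * ∏ k, t k := by
          rw [Finset.prod_mul_distrib, Finset.prod_mul_distrib, Finset.prod_const,
            Finset.card_univ, Fintype.card_fin, Equiv.prod_comp σ s]
  obtain ⟨h0, -, h⟩ := hAV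
  obtain ⟨-, -, -, -, -, -, -, -, hsum⟩ := h S hS
  rw [Matrix.det_apply]
  refine (hsum v hv _ _ _ _ hb hterm).trans ?_
  apply mul_le_mul_of_nonneg_right _ hb
  rw [Finset.card_univ, Fintype.card_perm, Fintype.card_fin]
  split_ifs
  · exact le_rfl
  · exact_mod_cast Nat.succ_le_of_lt (Nat.factorial_pos N)

theorem VOL (hAV : ST_AV) : ST_VOL := by
  intro N S A C hS hA hC
  have hC0 : (0 : ℝ) ≤ C := by linarith
  obtain ⟨α, hα⟩ : ∃ α : ℝ, α = ∏ v ∈ plc S, av v (A v).det := ⟨_, rfl⟩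
  have hαpos : 0 < α := by
    rw [hα]
    exact Finset.prod_pos fun v hv => (hAV.2.2 S hS).1 v hv _ (hA v hv)
  obtain ⟨F, hF⟩ : ∃ F : ℝ, F = (N.factorial : ℝ) := ⟨_, rfl⟩
  have hF1 : 1 ≤ F := by rw [hF]; exact_mod_cast Nat.succ_le_of_lt (Nat.factorial_pos N)
  obtain ⟨E, hE⟩ : ∃ E : ℝ, E = ∏ v ∈ plc S, (F * C ^ N) := ⟨_, rfl⟩
  have hE1 : 1 ≤ E := by
    rw [hE, Finset.prod_const]
    exact one_le_pow₀ (by nlinarith [one_le_pow₀ (n := N) hC])
  refine ⟨max 1 (max (E / α) (α * E)), le_max_left _ _, ?_⟩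
  intro s B lam hs hB
  have hn : (none : Option ℕ) ∈ plc S := by simp [plc]
  obtain ⟨t, ht⟩ : ∃ t : Option ℕ → Fin N → ℝ, ∀ v k, t v k = if v = none then lam k else 1 :=
    ⟨fun v k => if v = none then lam k else 1, fun _ _ => rfl⟩
  have htpos : ∀ v k, 0 < t v k := by
    intro v k; rw [ht]; split_ifs
    · exact hB.pos k
    · exact one_pos
  have hprodt : ∏ v ∈ plc S, ∏ k, t v k = ∏ k, lam k := by
    rw [Finset.prod_eq_single_of_mem none hn]
    · exact Finset.prod_congr rfl fun k _ => by rw [ht, if_pos rfl]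
    · intro v _ hv
      exact Finset.prod_eq_one fun k _ => by rw [ht, if_neg hv]
  have hdB : (mQ B).det = ((B.det : ℤ) : ℚ) := by rw [Int.cast_det]
  have hprodB : ∏ v ∈ plc S, av v (mQ B).det = 1 := by
    rw [hdB]
    exact (hAV.2.2 S hS).2.2.2.2.2.2.2.1 _ hB.det_ne hB.det_S
  have hdet : ∀ v ∈ plc S, av v (A v * mQ B).det = av v (A v).det * av v (mQ B).det := by
    intro v hv
    rw [Matrix.det_mul, (hAV.2.2 S hS).2.1 v hv]
  have hα2 : ∏ v ∈ plc S, av v (A v * mQ B).det = α := by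
    rw [Finset.prod_congr rfl hdet, Finset.prod_mul_distrib, hprodB, mul_one, hα]
  have hne : ∀ v ∈ plc S, (A v * mQ B).det ≠ 0 := by
    intro v hv
    rw [Matrix.det_mul, hdB]
    exact mul_ne_zero (hA v hv) (by exact_mod_cast hB.det_ne)
  have hinv : ∀ v ∈ plc S, av v ((A v * mQ B)⁻¹).det * av v (A v * mQ B).det = 1 := by
    intro v hv
    obtain ⟨φ, hφ⟩ := exists_hom hAV hS hv
    rw [← hφ, ← hφ, ← map_mul, ← Matrix.det_mul, Matrix.nonsing_inv_mul _ (hne v hv).isUnit,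
      Matrix.det_one, map_one]
  have hα3 : (∏ v ∈ plc S, av v ((A v * mQ B)⁻¹).det) * α = 1 := by
    rw [← hα2, ← Finset.prod_mul_distrib]
    exact Finset.prod_eq_one hinv
  -- the entries
  have hent : ∀ v ∈ plc S, ∀ i k, av v ((A v * mQ B) i k) ≤ C * s v i * t v k := by
    intro v hv i k
    cases v with
    | none => rw [ht, if_pos rfl]; exact hB.inf_le i k
    | some p =>
      rw [ht, if_neg (by simp), mul_one]
      have hp : p ∈ S := by simpa [plc] using hv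
      refine (hB.fin_le p hp i k).trans ?_
      have := hs _ hv i
      nlinarith
  have hent2 : ∀ v ∈ plc S, ∀ k i, av v (((A v * mQ B)⁻¹) k i) ≤
      C * (fun k => (t v k)⁻¹) k * (fun i => (s v i)⁻¹) i := by
    intro v hv k i
    have hsi := hs v hv i
    have htk := htpos v k
    show av v (((A v * mQ B)⁻¹) k i) ≤ C * (t v k)⁻¹ * (s v i)⁻¹
    rw [mul_assoc, ← mul_inv, ← div_eq_mul_inv, le_div_iff₀ (mul_pos htk hsi)]
    cases v with
    | none => rw [ht, if_pos rfl]; exact hB.inf_inv k i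
    | some p =>
      rw [ht, if_neg (by simp), one_mul]
      have hp : p ∈ S := by simpa [plc] using hv
      exact hB.fin_inv p hp k i
  obtain ⟨σ, hσ⟩ : ∃ σ : ℝ, σ = ∏ v ∈ plc S, ∏ i, s v i := ⟨_, rfl⟩
  obtain ⟨Λ, hΛ⟩ : ∃ Λ : ℝ, Λ = ∏ k, lam k := ⟨_, rfl⟩
  have hσpos : 0 < σ := by
    rw [hσ]; exact Finset.prod_pos fun v hv => Finset.prod_pos fun i _ => hs v hv i
  have hΛpos : 0 < Λ := by rw [hΛ]; exact Finset.prod_pos fun k _ => hB.pos k
  have hup : α ≤ E * (σ * Λ) := by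
    rw [← hα2]
    calc ∏ v ∈ plc S, av v (A v * mQ B).det
        ≤ ∏ v ∈ plc S, (F * (C ^ N * (∏ i, s v i) * ∏ k, t v k)) := by
          apply Finset.prod_le_prod
          · intro v _; exact hAV.1 _ _
          · intro v hv
            rw [hF]
            exact det_bd hAV hS hv _ _ _ C hC0 (fun i => (hs v hv i).le)
              (fun k => (htpos v k).le) (hent v hv)
      _ = E * (σ * Λ) := by
          rw [hE, hσ, hΛ, ← hprodt, ← Finset.prod_mul_distrib, ← Finset.prod_mul_distrib]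
          exact Finset.prod_congr rfl fun v _ => by ring
  have hlo : (∏ v ∈ plc S, av v ((A v * mQ B)⁻¹).det) ≤ E * (σ * Λ)⁻¹ := by
    calc ∏ v ∈ plc S, av v ((A v * mQ B)⁻¹).det
        ≤ ∏ v ∈ plc S, (F * (C ^ N * (∏ k, (t v k)⁻¹) * ∏ i, (s v i)⁻¹)) := by
          apply Finset.prod_le_prod
          · intro v _; exact hAV.1 _ _
          · intro v hv
            rw [hF]
            exact det_bd hAV hS hv _ (fun k => (t v k)⁻¹) (fun i => (s v i)⁻¹) C hC0
              (fun k => (inv_pos.2 (htpos v k)).le) (fun i => (inv_pos.2 (hs v hv i)).le)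
              (hent2 v hv)
      _ = E * (σ * Λ)⁻¹ := by
          rw [hE, hσ, hΛ, ← hprodt, ← Finset.prod_mul_distrib, ← Finset.prod_inv_distrib,
            ← Finset.prod_mul_distrib]
          refine Finset.prod_congr rfl fun v _ => ?_
          rw [Finset.prod_inv_distrib, Finset.prod_inv_distrib, mul_inv]
          ring
  have hpos2 := mul_pos hσpos hΛpos
  rw [← hσ, ← hΛ]
  constructor
  · rw [div_le_iff₀ (by positivity)]
    have h1 : E / α ≤ max 1 (max (E / α) (α * E)) := (le_max_left _ _).trans (le_max_right _ _)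
    have h2 : 1 ≤ σ * Λ * (E / α) := by
      rw [mul_div_assoc', le_div_iff₀ hαpos]
      linarith
    exact h2.trans (mul_le_mul_of_nonneg_left h1 hpos2.le)
  · refine le_trans ?_ ((le_max_right _ _).trans (le_max_right _ _))
    have h1 : 1 ≤ E * (σ * Λ)⁻¹ * α := by
      calc 1 = (∏ v ∈ plc S, av v ((A v * mQ B)⁻¹).det) * α := hα3.symm
        _ ≤ E * (σ * Λ)⁻¹ * α := mul_le_mul_of_nonneg_right hlo hαpos.le
    calc σ * Λ = (σ * Λ) * 1 := (mul_one _).symm
      _ ≤ (σ * Λ) * (E * (σ * Λ)⁻¹ * α) := mul_le_mul_of_nonneg_left h1 hpos2.le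
      _ = α * E := by field_simp

end Pool.Agent.Helper28.SUB
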